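import Pool.Agent.H79.RD.Targets

/-! Module AB of the board `rdh_modules`: the abstract theorem. -/

namespace Pool.Agent.H46.RD

open Finset Pool.Agent.H79.RD

theorem pf_AB : T_XI → T_MA → T_CN → T_AB := by
  intro XI MA CN V _ _ N b k g a a0 D m R T h φ hφ hk hg hgb ha0 haa hD hT hhR h1 h2 h3
  obtain ⟨Forb, hU, hE, hN⟩ := XI N b k T a g R h m hT hhR h1 h2 h3
  refine ⟨Forb.image (clauseOf φ), ?_, ?_, ?_, ?_⟩
  · calc (Forb.image (clauseOf φ)).card ≤ Forb.card := Finset.card_image_le
      _ ≤ Fintype.card (Idx N b k) := Finset.card_le_univ _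
      _ = N ^ k * 2 ^ (b * k) := by
          rw [Fintype.card_prod]
          simp [pow_mul]
  · intro C hC
    obtain ⟨π, -, rfl⟩ := Finset.mem_image.1 hC
    calc (clauseOf φ π).card ≤ (Finset.univ : Finset (Fin k × Fin b)).card :=
          Finset.card_image_le
      _ = k * b := by simp
  · intro z
    obtain ⟨σ, hσ⟩ := hU (bv φ z)
    refine ⟨clauseOf φ (σ, bv φ z ∘ σ), Finset.mem_image_of_mem _ hσ, ?_⟩
    intro l hl
    obtain ⟨q, -, rfl⟩ := Finset.mem_image.1 hl
    simp [bv]
  · intro S D' hD' hP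
    obtain ⟨P⟩ := hP
    have P' : Refutation (Forb.image (clauseOf φ)) S D :=
      { C := P.C
        dep := P.dep
        rule := P.rule
        root := by
          obtain ⟨i, hi, hi'⟩ := P.root
          exact ⟨i, hi, hi'.trans hD'⟩ }
    exact CN V N b g a0 R S φ P'.C hφ hgb
      (MA V N b k g a a0 D (g * (a - a0)) m R S φ Forb hφ hk hg hgb ha0 haa rfl hD hE hN P')

end Pool.Agent.H46.RD
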