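import Pool.Agent.H46.RD.NP

/-!
Module FACTS: all geometric facts.
-/

set_option autoImplicit false

open MeasureTheory Set Filter Topology Metric
open Pool.Agent.H91.RD
open Pool.Agent.H29.TF (hk P)

namespace Pool.Agent.H46.RD

lemma super_of {N : ℕ} {f : ℝ → ℝ} {U : Set (E N)} {u : ℝ → E N → ℝ} (h : SolM f U u) :
    Super f u where
  bdd := ⟨1, fun t ht x => by
    have := h.rng t ht.le x
    rwa [lift0_pos ht] at this⟩
  c2 := h.sol.c2
  dt := h.sol.dt
  cont := h.sol.cont
  le := fun t ht x => (h.sol.eqn t ht x).symm.le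

lemma P_zero {N : ℕ} (t : ℝ) (x : E N) : P t (fun _ : E N => (0 : ℝ)) x = 0 := by
  simp [P]

lemma mild_zero {N : ℕ} {f : ℝ → ℝ} (hf : f 0 = 0) :
    Mild f 0 (fun (_ : ℝ) (_ : E N) => (0 : ℝ)) where
  bdd := ⟨0, fun t _ x => by simp⟩
  meas := measurable_const
  cont := continuousOn_const
  duh := fun s t _ _ x => by
    simp only [hf, P_zero]
    simp

/-- the solution is small far from `U` at a fixed time -/
lemma far_small (h6 : T_CMP) (h7 : T_TAIL) {N : ℕ} {f : ℝ → ℝ} {K : ℝ} {U : Set (E N)}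
    {u : ℝ → E N → ℝ} (hf : Lip f K) (hu : SolM f U u) {t : ℝ} (ht : 0 < t) (x : E N) {r : ℝ}
    (hr : 0 ≤ r) (hrU : ∀ y, dist x y < r → y ∉ U) :
    u t x ≤ Real.exp (K * t) * ((1 / 2 : ℝ) ^ (-(N : ℝ) / 2) *
      Real.exp (-((1 - 1 / 2) * r ^ 2 / (4 * t)))) := by
  have e1 := h6 N f K K 0 0 t (lift0 U u) (fun _ _ => 0) hf le_rfl ht hu.mild (mild_zero hf.f0)
    (fun r _ y hy => by
      have h4 := hf.lip (lift0 U u r y) 0
      have h5 := le_abs_self (f (lift0 U u r y) - f 0)
      rw [abs_of_pos (sub_pos.2 hy)] at h4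
      exact h5.trans h4) x
  have e2 : (fun y => max (lift0 U u 0 y - 0) 0) = chi U := by
    funext y
    have : lift0 U u 0 = chi U := by
      unfold lift0
      rw [if_pos le_rfl]
    rw [this, sub_zero]
    apply max_eq_left
    unfold chi
    exact indicator_nonneg (fun _ _ => zero_le_one) _
  rw [lift0_pos ht, sub_zero, sub_zero, e2] at e1
  refine e1.trans ?_
  apply mul_le_mul_of_nonneg_left _ (Real.exp_pos _).le
  refine h7 N (1 / 2) t r (by norm_num) (by norm_num) ht hr x (chi U) ?_ ?_ ?_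
  · exact (measurable_const.indicator hu.meas).aestronglyMeasurable
  · intro y
    unfold chi
    by_cases h : y ∈ U
    · rw [indicator_of_mem h]
      norm_num
    · rw [indicator_of_notMem h]
      norm_num
  · intro y hy
    unfold chi
    rw [indicator_of_notMem (hrU y hy)]

lemma exists_radius (A t : ℝ) (ht : 0 < t) : ∃ r0 : ℝ, 0 < r0 ∧ ∀ r ≥ r0,
    A * Real.exp (-((1 - 1 / 2) * r ^ 2 / (4 * t))) < 3 / 4 := by
  have h1 : Tendsto (fun r : ℝ => (1 - 1 / 2) * r ^ 2 / (4 * t)) atTop atTop := by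
    have : (fun r : ℝ => (1 - 1 / 2) * r ^ 2 / (4 * t)) = fun r => (1 / (8 * t)) * r ^ 2 := by
      funext r
      field_simp
      ring
    rw [this]
    exact (tendsto_pow_atTop two_ne_zero).const_mul_atTop (by positivity)
  have h2 : Tendsto (fun r : ℝ => A * Real.exp (-((1 - 1 / 2) * r ^ 2 / (4 * t)))) atTop
      (𝓝 (A * 0)) := (Real.tendsto_exp_neg_atTop_nhds_zero.comp h1).const_mul A
  rw [mul_zero] at h2
  have h3 := (h2.eventually (gt_mem_nhds (show (0 : ℝ) < 3 / 4 by norm_num))).and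
    (eventually_gt_atTop 0)
  obtain ⟨r0, hr0⟩ := eventually_atTop.1 h3
  exact ⟨r0, (hr0 r0 le_rfl).2, fun r hr => (hr0 r hr).1⟩

theorem facts (h1 : T_P1) (h2 : T_P2) (h3 : T_IGN) (h4 : T_NP) (h5 : T_TB) (h6 : T_CMP)
    (h7 : T_TAIL) : T_FACTS := by
  intro N f φ c lam K k μ η0 θ ρ U u hN hyp hρ hinv hcore hC hU hu δ hδ
  have hc : 0 < c := hyp.front.cpos
  obtain ⟨η, R0, K3, s0, hη, hηδ, hR0, hK3, hs0, hexp⟩ :=
    h1 N f φ c lam K k μ η0 θ hN hyp (min δ (1 / 4)) (lt_min hδ (by norm_num))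
  have hη4 : η ≤ 1 / 4 := hηδ.trans (min_le_right _ _)
  have hR0' : 0 < R0 := by linarith
  -- expansion
  set C1 := max s0 (K3 + R0) with hC1
  have hC1s : s0 ≤ C1 := le_max_left _ _
  have hC1K : K3 + R0 ≤ C1 := le_max_right _ _
  have hE : ∀ C t3, C1 ≤ C → 0 < t3 → Expd c C t3 (ign u η R0) := by
    intro C t3 hC ht3 t ht s hs x hx y hy y' hy'
    have hs1 : 1 ≤ s := by linarith
    have hq : 1 ≤ √s := Real.one_le_sqrt.2 hs1
    refine hexp u (super_of hu) t (by linarith) x hx s (by linarith) y' ?_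
    have e1 : dist x y' ≤ dist x y + R0 := by
      have := dist_triangle x y y'
      rw [mem_closedBall, dist_comm] at hy'
      linarith
    nlinarith
  obtain ⟨⟨D, hD0, hD⟩, hign⟩ := h3 N f K ρ U u hyp.toLip hρ hinv hcore hu
  obtain ⟨t1, ht1, hign1⟩ := hign η hη R0 hR0'
  set C2 := max C1 D with hC2
  have hC2C : C1 ≤ C2 := le_max_left _ _
  have hC2D : D ≤ C2 := le_max_right _ _
  have hup : ∀ C, C2 ≤ C → ∀ t ≥ t1, ∀ y ∈ U, ∃ p ∈ ign u η R0 t, dist y p ≤ C := by
    intro C hC t ht y hy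
    obtain ⟨p, hp, hp2⟩ := hD y hy
    exact ⟨p, hign1 t ht hp, by linarith⟩
  obtain ⟨L0, S, T, hL0, hS, hT, hnp⟩ := h4 N f φ c lam K k μ η0 θ U u hN hyp hU hC hu η R0 C2 t1
    hη (by linarith) hR0' (by linarith) ht1 (hE C2 t1 hC2C ht1) (hup C2 le_rfl t1 le_rfl)
  obtain ⟨CT, T', hCT, hTT', htl⟩ := h5 N f φ c lam K k μ η0 θ U u hN hyp hU hu η R0 C2 t1 L0 S T
    hη (by linarith) hR0' (by linarith) ht1 (hE C2 t1 hC2C ht1) (hup C2 le_rfl t1 le_rfl) hL0 hS hT
    hnp
  obtain ⟨K5, hK5, hp2⟩ := h2 N f φ c lam K k μ η0 θ hN hyp CT (1 / 2) hCT (by norm_num)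
  have ht3 : 0 < T' := by linarith
  obtain ⟨r0, hr0, hrad⟩ := exists_radius (Real.exp (K * T') * (1 / 2 : ℝ) ^ (-(N : ℝ) / 2)) T' ht3
  set C := max (max C2 CT) (max K5 r0) with hCd
  have c1 : C2 ≤ C := (le_max_left _ _).trans (le_max_left _ _)
  have c2 : CT ≤ C := (le_max_right _ _).trans (le_max_left _ _)
  have c3 : K5 ≤ C := (le_max_left _ _).trans (le_max_right _ _)
  have c4 : r0 ≤ C := (le_max_right _ _).trans (le_max_right _ _)
  have hne : ∀ t ≥ T', (ign u η R0 t).Nonempty := by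
    intro t ht
    obtain ⟨y, hy⟩ := hU
    obtain ⟨p, hp, -⟩ := hup C2 le_rfl t (by linarith) y hy
    exact ⟨p, hp⟩
  refine ⟨η, R0, C, T', hη, hηδ.trans (min_le_left _ _), hR0', ?_, ?_⟩
  · refine ⟨hc, by linarith, ht3, hU, hne, hE C T' (by linarith) ht3, ?_, ?_, ?_⟩
    · -- back
      intro t ht s hs y hy
      rcases hs.eq_or_lt with h0 | h0
      · subst h0
        rw [add_zero] at hy
        refine ⟨y, hy, ?_⟩
        rw [dist_self, Real.sqrt_zero]
        linarith
      · have hG : infDist y (ign u η R0 t) < c * s + K5 * (1 + √s) := by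
          by_contra hcon
          push Not at hcon
          have e1 := hp2 U u hu t (by linarith) y s h0 _ hcon (fun y' => by
            refine (htl t ht y').trans ?_
            apply mul_le_mul_of_nonneg_left _ (by linarith)
            apply Real.exp_le_exp.2
            have e2 : infDist y (ign u η R0 t) ≤ infDist y' (ign u η R0 t) + dist y y' :=
              infDist_le_infDist_add_dist
            rw [dist_comm] at e2
            have e3 : c / 2 * (infDist y (ign u η R0 t) - dist y' y) ≤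
                c / 2 * infDist y' (ign u η R0 t) :=
              mul_le_mul_of_nonneg_left (by linarith) (by positivity)
            linarith)
          have e2 := hy y (mem_closedBall_self hR0'.le)
          linarith
        obtain ⟨x, hx, hxy⟩ := (infDist_lt_iff (hne t ht)).1 hG
        refine ⟨x, hx, ?_⟩
        rw [dist_comm] at hxy
        have hq : 0 ≤ √s := Real.sqrt_nonneg s
        nlinarith
    · exact hup C c1 T' (by linarith)
    · -- down
      intro p hp
      have hlt : infDist p U < r0 := by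
        by_contra hcon
        push Not at hcon
        have e1 := far_small h6 h7 hyp.toLip hu ht3 p (r := infDist p U) infDist_nonneg
          (fun y hy hyU => by
            have := infDist_le_dist_of_mem (x := p) hyU
            linarith)
        have e2 := hrad (infDist p U) hcon
        have e3 := hp p (mem_closedBall_self hR0'.le)
        rw [← mul_assoc] at e1
        linarith
      obtain ⟨y, hy, hpy⟩ := (infDist_lt_iff hU).1 hlt
      exact ⟨y, hy, by linarith⟩
  · intro t ht x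
    refine (htl t ht x).trans ?_
    exact mul_le_mul_of_nonneg_right c2 (Real.exp_pos _).le

end Pool.Agent.H46.RD
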