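import Pool.Agent.H82.RD.Targets

/-!
# The numerical choice in the height bound (row HNU)
-/

set_option autoImplicit false

open Finset

namespace Pool.Agent.H46.RD

open Pool.Agent.H82.RD

lemma fac_sq (n : ℕ) : n ^ n ≤ n.factorial ^ 2 := by
  have h1 : ∏ i ∈ range n, (i + 1) = n.factorial := prod_range_add_one_eq_factorial n
  have h2 : ∏ i ∈ range n, (n - i) = n.factorial := by
    rw [← h1, ← prod_range_reflect (fun i => i + 1) n]
    refine prod_congr rfl fun i hi => ?_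
    have := mem_range.mp hi
    omega
  calc n ^ n = ∏ _i ∈ range n, n := by rw [prod_const, card_range]
    _ ≤ ∏ i ∈ range n, ((i + 1) * (n - i)) := by
        refine prod_le_prod (fun _ _ => Nat.zero_le _) fun i hi => ?_
        have hi' := mem_range.mp hi
        obtain ⟨m, hm⟩ : ∃ m, n = i + 1 + m := ⟨n - (i + 1), by omega⟩
        have h3 : n - i = m + 1 := by omega
        rw [h3, hm]
        nlinarith [Nat.zero_le (i * m)]
    _ = n.factorial ^ 2 := by rw [prod_mul_distrib, h1, h2, sq]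

lemma two_pow_fac (n : ℕ) : 2 ^ n ≤ (n + 1).factorial := by
  induction n with
  | zero => simp
  | succ n ih =>
    rw [Nat.factorial_succ, pow_succ, mul_comm]
    exact Nat.mul_le_mul (by omega) ih

/-- growth of powers of two against a power -/
lemma pow_step (c m : ℕ) (hc : 0 < c) (h : (c + 1) ^ m ≤ 2 * c ^ m) (n : ℕ) (hn : c ≤ n) :
    (n + 1) ^ m ≤ 2 * n ^ m := by
  have h1 : ((n + 1) * c) ^ m ≤ ((c + 1) * n) ^ m := Nat.pow_le_pow_left (by nlinarith) m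
  rw [mul_pow, mul_pow] at h1
  have h2 : (n + 1) ^ m * c ^ m ≤ (2 * n ^ m) * c ^ m := by
    refine h1.trans ?_
    calc (c + 1) ^ m * n ^ m ≤ (2 * c ^ m) * n ^ m := Nat.mul_le_mul_right _ h
      _ = (2 * n ^ m) * c ^ m := by ring
  exact Nat.le_of_mul_le_mul_right h2 (pow_pos hc m)

lemma pow20 (n : ℕ) (hn : 150 ≤ n) : n ^ 20 ≤ 2 ^ (n - 1) := by
  induction n, hn using Nat.le_induction with
  | base => norm_num
  | succ n hn ih =>
    have h1 := pow_step 150 20 (by norm_num) (by norm_num) n hn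
    have h2 : 2 ^ (n + 1 - 1) = 2 * 2 ^ (n - 1) := by
      rw [← pow_succ']
      congr 1
      omega
    rw [h2]
    exact h1.trans (Nat.mul_le_mul_left 2 ih)

lemma pow5 (n : ℕ) (hn : 50 ≤ n) : 29184 * n ^ 5 < 2 ^ (n - 1) := by
  induction n, hn using Nat.le_induction with
  | base => norm_num
  | succ n hn ih =>
    have h1 := pow_step 50 5 (by norm_num) (by norm_num) n hn
    have h2 : 2 ^ (n + 1 - 1) = 2 * 2 ^ (n - 1) := by
      rw [← pow_succ']
      congr 1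
      omega
    rw [h2]
    calc 29184 * (n + 1) ^ 5 ≤ 29184 * (2 * n ^ 5) := Nat.mul_le_mul_left _ h1
      _ = 2 * (29184 * n ^ 5) := by ring
      _ < 2 * 2 ^ (n - 1) := by omega

/-- the factor in the last inequality -/
lemma key (X w lam : ℕ) (hw : (w + 1).factorial ≤ X) (hl : 50 ≤ lam) (hX1 : 2 ^ (lam - 1) ≤ X)
    (hX2 : X < 2 ^ lam) :
    1216 * (w + 1) ^ 3 * (8 * (w + 1) ^ 3 * lam) ^ w ≤ X ^ 14 := by
  have hX0 : 1 ≤ X := le_trans (Nat.factorial_pos _) hw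
  have h2w : 2 ^ w ≤ X := (two_pow_fac w).trans hw
  have hwl : w + 1 ≤ lam := by
    have : 2 ^ w < 2 ^ lam := lt_of_le_of_lt h2w hX2
    exact (Nat.pow_lt_pow_iff_right (by norm_num)).mp this
  have hww : (w + 1) ^ (w + 1) ≤ X ^ 2 := (fac_sq (w + 1)).trans (Nat.pow_le_pow_left hw 2)
  have hww' : (w + 1) ^ w ≤ X ^ 2 := le_trans (Nat.pow_le_pow_right (by omega) (by omega)) hww
  have h8 : 8 ^ w ≤ X ^ 3 := by
    calc 8 ^ w = (2 ^ w) ^ 3 := by rw [← pow_mul, mul_comm, pow_mul]; norm_num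
      _ ≤ X ^ 3 := Nat.pow_le_pow_left h2w 3
  have hw3 : ((w + 1) ^ 3) ^ w ≤ X ^ 6 := by
    calc ((w + 1) ^ 3) ^ w = ((w + 1) ^ w) ^ 3 := by rw [← pow_mul, ← pow_mul, mul_comm]
      _ ≤ (X ^ 2) ^ 3 := Nat.pow_le_pow_left hww' 3
      _ = X ^ 6 := by rw [← pow_mul]
  have hlam : lam ^ w ≤ 4 * X ^ 4 := by
    rcases le_or_gt lam ((w + 1) ^ 2) with h | h
    · calc lam ^ w ≤ ((w + 1) ^ 2) ^ w := Nat.pow_le_pow_left h w
        _ = ((w + 1) ^ w) ^ 2 := by rw [← pow_mul, ← pow_mul, mul_comm]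
        _ ≤ (X ^ 2) ^ 2 := Nat.pow_le_pow_left hww' 2
        _ = X ^ 4 := by rw [← pow_mul]
        _ ≤ 4 * X ^ 4 := by omega
    · -- `w + 1 ≤ sqrt lam`
      have hs1 : w + 1 ≤ Nat.sqrt lam := by
        rw [Nat.le_sqrt']
        exact h.le
      have hs2 : lam < (Nat.sqrt lam + 1) ^ 2 := Nat.lt_succ_sqrt' lam
      have hs3 : Nat.sqrt lam ^ 2 ≤ lam := Nat.sqrt_le' lam
      have hs4 : Nat.sqrt lam + 1 ≤ 2 ^ Nat.sqrt lam := Nat.lt_two_pow_self
      have hs5 : lam ≤ (2 ^ Nat.sqrt lam) ^ 2 := hs2.le.trans (Nat.pow_le_pow_left hs4 2)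
      calc lam ^ w ≤ ((2 ^ Nat.sqrt lam) ^ 2) ^ w := Nat.pow_le_pow_left hs5 w
        _ ≤ ((2 ^ Nat.sqrt lam) ^ 2) ^ Nat.sqrt lam :=
            Nat.pow_le_pow_right (by positivity) (by omega)
        _ = (2 ^ (Nat.sqrt lam ^ 2)) ^ 2 := by
            rw [← pow_mul, ← pow_mul, ← pow_mul]
            congr 1
            ring
        _ ≤ (2 ^ lam) ^ 2 := Nat.pow_le_pow_left (Nat.pow_le_pow_right (by norm_num) hs3) 2
        _ ≤ (2 * X) ^ 2 := by
            refine Nat.pow_le_pow_left ?_ 2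
            calc 2 ^ lam = 2 * 2 ^ (lam - 1) := by
                  rw [← pow_succ']
                  congr 1
                  omega
              _ ≤ 2 * X := by omega
        _ = 4 * X ^ 2 := by ring
        _ ≤ 4 * X ^ 4 := Nat.mul_le_mul_left 4 (Nat.pow_le_pow_right hX0 (by norm_num))
  have h5 := pow5 lam hl
  have hl3 : 4864 * (w + 1) ^ 3 ≤ X := by
    calc 4864 * (w + 1) ^ 3 ≤ 29184 * lam ^ 3 :=
          Nat.mul_le_mul (by norm_num) (Nat.pow_le_pow_left hwl 3)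
      _ ≤ 29184 * lam ^ 5 :=
          Nat.mul_le_mul_left _ (Nat.pow_le_pow_right (by omega) (by norm_num))
      _ ≤ X := h5.le.trans hX1
  calc 1216 * (w + 1) ^ 3 * (8 * (w + 1) ^ 3 * lam) ^ w
      = 1216 * (w + 1) ^ 3 * (8 ^ w * ((w + 1) ^ 3) ^ w * lam ^ w) := by
        rw [mul_pow, mul_pow]
    _ ≤ 1216 * (w + 1) ^ 3 * (X ^ 3 * X ^ 6 * (4 * X ^ 4)) :=
        Nat.mul_le_mul_left _ (Nat.mul_le_mul (Nat.mul_le_mul h8 hw3) hlam)
    _ = (4864 * (w + 1) ^ 3) * X ^ 13 := by ring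
    _ ≤ X * X ^ 13 := Nat.mul_le_mul_right _ hl3
    _ = X ^ 14 := by ring

/-- the numerical condition -/
lemma nc (X q w lam bet T Bd u : ℕ) (hq : 2 ≤ q) (hX2 : X < 2 ^ lam) (hb : Bd < 2 ^ bet)
    (hlb : lam ≤ bet) (hl : 1 ≤ lam) (hT : T = X ^ 15 * bet) (hT1 : 1 ≤ T) (hu : 1 ≤ u)
    (huw : u ≤ w) :
    NC q (8 * (w + 1) ^ 2 * lam * T) (304 * (w + 1) ^ 2 * bet) (2 * Bd * T) (X ^ T) u := by
  obtain ⟨v, hv⟩ : ∃ v, v = w + 1 := ⟨_, rfl⟩
  rw [← hv]
  obtain ⟨A, hA⟩ : ∃ A, A = 8 * v ^ 2 * lam * T := ⟨_, rfl⟩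
  obtain ⟨B, hB⟩ : ∃ B, B = 304 * v ^ 2 * bet := ⟨_, rfl⟩
  rw [← hA, ← hB]
  have hv1 : 1 ≤ v := by omega
  have hb1 : 1 ≤ bet := hl.trans hlb
  have hTb : T ≤ 2 ^ (15 * lam + bet) := by
    rw [hT, pow_add, mul_comm 15 lam, pow_mul]
    exact Nat.mul_le_mul (Nat.pow_le_pow_left hX2.le 15) Nat.lt_two_pow_self.le
  have hD : 2 * (2 * Bd * T) ^ 2 ≤ 2 ^ (3 + 4 * bet + 30 * lam) := by
    calc 2 * (2 * Bd * T) ^ 2 ≤ 2 * (2 * 2 ^ bet * 2 ^ (15 * lam + bet)) ^ 2 := by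
          refine Nat.mul_le_mul_left _ (Nat.pow_le_pow_left ?_ 2)
          exact Nat.mul_le_mul (Nat.mul_le_mul_left _ hb.le) hTb
      _ = 2 ^ (3 + 4 * bet + 30 * lam) := by
          have : 2 * 2 ^ bet * 2 ^ (15 * lam + bet) = 2 ^ (1 + bet + (15 * lam + bet)) := by
            rw [pow_add 2 (1 + bet), pow_add 2 1 bet, pow_one]
          rw [this, ← pow_mul, ← pow_succ']
          congr 1
          ring
  have hu1 : u + 1 ≤ v := by omega
  have h1 : ((u + 1) * (2 * (2 * Bd * T) ^ 2) ^ (u + 1)) ^ A ≤ 2 ^ (38 * bet * v * A) := by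
    rw [pow_mul]
    refine Nat.pow_le_pow_left ?_ A
    calc (u + 1) * (2 * (2 * Bd * T) ^ 2) ^ (u + 1)
        ≤ 2 ^ v * (2 ^ (3 + 4 * bet + 30 * lam)) ^ v := by
          refine Nat.mul_le_mul ?_ ?_
          · exact hu1.trans Nat.lt_two_pow_self.le
          · exact (Nat.pow_le_pow_left hD _).trans (Nat.pow_le_pow_right (by positivity) hu1)
      _ = 2 ^ (v * (4 + 4 * bet + 30 * lam)) := by
          rw [← pow_mul, ← pow_add]
          congr 1
          ring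
      _ ≤ 2 ^ (38 * bet * v) := by
          refine Nat.pow_le_pow_right (by norm_num) ?_
          rw [mul_comm (38 * bet) v]
          exact Nat.mul_le_mul_left v (by omega)
  have h2 : ((X ^ T) ^ (u + 1)) ^ B ≤ 2 ^ (lam * T * v * B) := by
    rw [pow_mul 2 (lam * T * v) B, pow_mul 2 (lam * T) v, pow_mul 2 lam T]
    refine Nat.pow_le_pow_left ?_ B
    exact (Nat.pow_le_pow_left (Nat.pow_le_pow_left hX2.le T) _).trans
      (Nat.pow_le_pow_right (by positivity) hu1)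
  have h3 : (A + u).choose u ≤ 2 ^ (A + v) :=
    (Nat.choose_le_two_pow _ _).trans (Nat.pow_le_pow_right (by norm_num) (by omega))
  have hM : (B * (A + u).choose u) * (((u + 1) * (2 * (2 * Bd * T) ^ 2) ^ (u + 1)) ^ A *
      ((X ^ T) ^ (u + 1)) ^ B) < 2 ^ (B + (A + v) + (38 * bet * v * A + lam * T * v * B)) := by
    rw [pow_add 2 (B + (A + v)), pow_add 2 B, pow_add 2 (38 * bet * v * A)]
    refine Nat.mul_lt_mul_of_lt_of_le ?_ (Nat.mul_le_mul h1 h2) (by positivity)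
    exact Nat.mul_lt_mul_of_lt_of_le Nat.lt_two_pow_self h3 (by positivity)
  refine lt_of_lt_of_le hM ?_
  refine le_trans ?_ (Nat.pow_le_pow_left hq _)
  refine Nat.pow_le_pow_right (by norm_num) ?_
  rw [Nat.le_div_iff_mul_le (by norm_num)]
  refine Nat.le_sub_of_add_le ?_
  rw [Nat.le_div_iff_mul_le (by omega)]
  have h4 : ((B + (A + v) + (38 * bet * v * A + lam * T * v * B)) * 2 + 2 * A) * u ≤
      ((B + (A + v) + (38 * bet * v * A + lam * T * v * B)) * 2 + 2 * A) * v :=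
    Nat.mul_le_mul_left _ (by omega)
  refine h4.trans ?_
  -- everything is at most a multiple of `v ^ 4 * lam * bet * T`
  obtain ⟨Z, hZ⟩ : ∃ Z, Z = v ^ 4 * lam * bet * T := ⟨_, rfl⟩
  have e1 : v ^ 3 * bet ≤ Z := by
    rw [hZ]
    calc v ^ 3 * bet = v ^ 3 * 1 * bet * 1 := by ring
      _ ≤ v ^ 4 * lam * bet * T := Nat.mul_le_mul (Nat.mul_le_mul_right _ (Nat.mul_le_mul
          (Nat.pow_le_pow_right hv1 (by norm_num)) hl)) hT1
  have e2 : v ^ 3 * lam * T ≤ Z := by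
    rw [hZ]
    calc v ^ 3 * lam * T = v ^ 3 * lam * 1 * T := by ring
      _ ≤ v ^ 4 * lam * bet * T := Nat.mul_le_mul_right _ (Nat.mul_le_mul (Nat.mul_le_mul_right _
          (Nat.pow_le_pow_right hv1 (by norm_num))) hb1)
  have e3 : v ^ 2 ≤ Z := by
    rw [hZ]
    calc v ^ 2 = v ^ 2 * 1 * 1 * 1 := by ring
      _ ≤ v ^ 4 * lam * bet * T := Nat.mul_le_mul (Nat.mul_le_mul (Nat.mul_le_mul
          (Nat.pow_le_pow_right hv1 (by norm_num)) hl) hb1) hT1
  have e4 : ((B + (A + v) + (38 * bet * v * A + lam * T * v * B)) * 2 + 2 * A) * v =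
      608 * (v ^ 3 * bet) + 32 * (v ^ 3 * lam * T) + 2 * v ^ 2 + 1216 * Z := by
    rw [hA, hB, hZ]
    ring
  have e5 : A * B = 2432 * Z := by
    rw [hA, hB, hZ]
    ring
  rw [e4, e5]
  omega

theorem pf_HNU : T_HNU := by
  refine ⟨2 ^ 50, by norm_num, ?_⟩
  intro X q r e Bd hX hq hqX hr hBd hBe
  obtain ⟨lam, hlam⟩ : ∃ lam, lam = Nat.log 2 X + 1 := ⟨_, rfl⟩
  obtain ⟨bet, hbet⟩ : ∃ bet, bet = Nat.log 2 Bd + 1 := ⟨_, rfl⟩
  have hX0 : X ≠ 0 := by
    have : 0 < 2 ^ 50 := by norm_num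
    omega
  have hX1' : 1 ≤ X := by omega
  have hXB : X ≤ Bd := by
    refine le_trans ?_ hBd
    calc X = X ^ 1 := (pow_one X).symm
      _ ≤ X ^ 20 := Nat.pow_le_pow_right hX1' (by norm_num)
  have hB0 : Bd ≠ 0 := by omega
  have hX2 : X < 2 ^ lam := by
    rw [hlam]
    exact Nat.lt_pow_succ_log_self (by norm_num) X
  have hX1 : 2 ^ (lam - 1) ≤ X := by
    rw [hlam, Nat.add_sub_cancel]
    exact Nat.pow_log_le_self 2 hX0
  have hB2 : Bd < 2 ^ bet := by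
    rw [hbet]
    exact Nat.lt_pow_succ_log_self (by norm_num) Bd
  have hB1 : 2 ^ (bet - 1) ≤ Bd := by
    rw [hbet, Nat.add_sub_cancel]
    exact Nat.pow_log_le_self 2 hB0
  have hlb : lam ≤ bet := by
    rw [hlam, hbet]
    exact Nat.add_le_add_right (Nat.log_mono_right hXB) 1
  have hl50 : 50 ≤ lam := by
    have h1 : 2 ^ 50 < 2 ^ lam := lt_of_le_of_lt hX hX2
    have := (Nat.pow_lt_pow_iff_right (by norm_num)).mp h1
    omega
  have hb150 : 150 ≤ bet := by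
    have h1 : 2 ^ 150 < 2 ^ bet := by
      refine lt_of_le_of_lt ?_ hB2
      refine le_trans ?_ hBd
      calc 2 ^ 150 ≤ (2 ^ 50) ^ 20 := by norm_num
        _ ≤ X ^ 20 := Nat.pow_le_pow_left hX 20
    have := (Nat.pow_lt_pow_iff_right (by norm_num)).mp h1
    omega
  have h2w : 2 ^ r ≤ X := (two_pow_fac r).trans hr
  have hwl : r + 1 ≤ lam := by
    have : 2 ^ r < 2 ^ lam := lt_of_le_of_lt h2w hX2
    exact (Nat.pow_lt_pow_iff_right (by norm_num)).mp this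
  obtain ⟨T, hT⟩ : ∃ T, T = X ^ 15 * bet := ⟨_, rfl⟩
  have hT1 : 1 ≤ T := by
    rw [hT]
    exact Nat.one_le_iff_ne_zero.mpr (by positivity)
  obtain ⟨A, hA⟩ : ∃ A, A = 8 * (r + 1) ^ 2 * lam * T := ⟨_, rfl⟩
  obtain ⟨B, hB⟩ : ∃ B, B = 304 * (r + 1) ^ 2 * bet := ⟨_, rfl⟩
  -- the main bound for `e`
  have hAB : 12 * X * (A * B) < Bd := by
    have h1 : 12 * X * (A * B) < X ^ 17 * bet ^ 2 := by
      calc 12 * X * (A * B) = (29184 * ((r + 1) ^ 4 * lam)) * (X ^ 16 * bet ^ 2) := by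
            rw [hA, hB, hT]
            ring
        _ ≤ (29184 * (lam ^ 4 * lam)) * (X ^ 16 * bet ^ 2) :=
            Nat.mul_le_mul_right _ (Nat.mul_le_mul_left _ (Nat.mul_le_mul_right _
              (Nat.pow_le_pow_left hwl 4)))
        _ = (29184 * lam ^ 5) * (X ^ 16 * bet ^ 2) := by ring
        _ < X * (X ^ 16 * bet ^ 2) := by
            refine Nat.mul_lt_mul_of_pos_right ((pow5 lam hl50).trans_le hX1) ?_
            positivity
        _ = X ^ 17 * bet ^ 2 := by ring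
    refine lt_of_lt_of_le h1 ?_
    have h2 : bet ^ 20 ≤ Bd := (pow20 bet hb150).trans hB1
    have h3 : (X ^ 17 * bet ^ 2) ^ 10 ≤ Bd ^ 10 := by
      calc (X ^ 17 * bet ^ 2) ^ 10 = X ^ 170 * bet ^ 20 := by ring
        _ ≤ X ^ 180 * bet ^ 20 :=
            Nat.mul_le_mul_right _ (Nat.pow_le_pow_right hX1' (by norm_num))
        _ = (X ^ 20) ^ 9 * bet ^ 20 := by ring
        _ ≤ Bd ^ 9 * Bd := Nat.mul_le_mul (Nat.pow_le_pow_left hBd 9) h2
        _ = Bd ^ 10 := by ring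
    exact (Nat.pow_le_pow_iff_left (by norm_num)).mp h3
  have h3AB : 3 * (A * B) < e := by
    have h1 : 4 * X * (3 * (A * B)) < 4 * X * e := by
      calc 4 * X * (3 * (A * B)) = 12 * X * (A * B) := by ring
        _ < Bd := hAB
        _ ≤ 4 * X * e := hBe
    exact Nat.lt_of_mul_lt_mul_left h1
  have hABb : bet + lam * T + 10 ≤ A * B := by
    have h1 : A * B = 2432 * ((r + 1) ^ 4 * lam * bet * T) := by
      rw [hA, hB]
      ring
    have hr1 : 1 ≤ (r + 1) ^ 4 := Nat.one_le_pow _ _ (by omega)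
    have h2 : bet ≤ (r + 1) ^ 4 * lam * bet * T := by
      calc bet = 1 * 1 * bet * 1 := by ring
        _ ≤ (r + 1) ^ 4 * lam * bet * T := Nat.mul_le_mul (Nat.mul_le_mul_right _
            (Nat.mul_le_mul hr1 (by omega))) hT1
    have h3 : lam * T ≤ (r + 1) ^ 4 * lam * bet * T := by
      calc lam * T = 1 * lam * 1 * T := by ring
        _ ≤ (r + 1) ^ 4 * lam * bet * T := Nat.mul_le_mul_right _ (Nat.mul_le_mul
            (Nat.mul_le_mul_right _ hr1) (by omega))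
    rw [h1]
    omega
  refine ⟨T, hT1, fun μ hμ => ⟨A, B, ?_, ?_, ?_, ?_, ?_, ?_⟩⟩
  · rw [hA]
    exact Nat.one_le_iff_ne_zero.mpr (by positivity)
  · rw [hB]
    have hr1 : 1 ≤ (r + 1) ^ 2 := Nat.one_le_pow _ _ (by omega)
    nlinarith
  · have hμ' : μ < bet := by
      have h1 : 2 ^ μ < 2 ^ bet :=
        lt_of_le_of_lt ((Nat.pow_le_pow_left hq μ).trans hμ) hB2
      exact (Nat.pow_lt_pow_iff_right (by norm_num)).mp h1
    omega
  · have hμ' : μ < bet := by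
      have h1 : 2 ^ μ < 2 ^ bet :=
        lt_of_le_of_lt ((Nat.pow_le_pow_left hq μ).trans hμ) hB2
      exact (Nat.pow_lt_pow_iff_right (by norm_num)).mp h1
    calc X ^ T < (2 ^ lam) ^ T := Nat.pow_lt_pow_left hX2 (by omega)
      _ = 2 ^ (lam * T) := (pow_mul _ _ _).symm
      _ ≤ q ^ (lam * T) := Nat.pow_le_pow_left hq _
      _ ≤ q ^ (e - 3 - μ - 1) := Nat.pow_le_pow_right (by omega) (by omega)
  · intro u hu hur
    rw [hA, hB]
    exact nc X q r lam bet T Bd u hq hX2 hB2 hlb (by omega) hT hT1 hu hur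
  · have hk := key X r lam hr hl50 hX1 hX2
    calc (r + 1) * B * ((r + 1) * A) ^ r * (4 * X)
        = (1216 * (r + 1) ^ 3 * (8 * (r + 1) ^ 3 * lam) ^ r) * (X * bet) * T ^ r := by
          have h1 : (r + 1) * A = (8 * (r + 1) ^ 3 * lam) * T := by
            rw [hA]
            ring
          rw [h1, mul_pow, hB]
          ring
      _ ≤ X ^ 14 * (X * bet) * T ^ r := Nat.mul_le_mul_right _ (Nat.mul_le_mul_right _ hk)
      _ = T ^ (r + 1) := by
          rw [pow_succ, hT]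
          ring
      _ < (T + 1) ^ (r + 1) := Nat.pow_lt_pow_left (by omega) (by omega)

end Pool.Agent.H46.RD
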