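import Pool.Agent.H91.RD.Targets

/-!
Module NP: far from the ignited set the solution is below the threshold.
-/

set_option autoImplicit false

open MeasureTheory Set Filter Topology Metric
open Pool.Agent.H91.RD

namespace Pool.Agent.H46.RD

lemma lift0_pos {N : ℕ} {U : Set (E N)} {u : ℝ → E N → ℝ} {t : ℝ} (ht : 0 < t) :
    lift0 U u t = u t := by
  unfold lift0
  rw [if_neg (not_le.2 ht)]

/-- cone geometry: `h = M e - v` with `‖v‖ ≤ L` lies in a narrow cone around `e` -/
lemma cone_mem {N : ℕ} {e h v : E N} {L M s0 : ℝ} (he : ‖e‖ = 1) (hL : 0 ≤ L) (hs0 : 0 < s0)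
    (hs1 : s0 < 1) (hM : L + L / s0 + 1 ≤ M) (hv : ‖v‖ ≤ L) (hh : h = M • e - v) :
    √(1 - s0 ^ 2) * ‖h‖ ≤ inner ℝ h e := by
  have hee : inner ℝ e e = (1 : ℝ) := by
    rw [real_inner_self_eq_norm_sq, he]
    norm_num
  have hve : |inner ℝ v e| ≤ L := by
    have := abs_real_inner_le_norm v e
    rw [he, mul_one] at this
    exact this.trans hv
  have hhe : inner ℝ h e = M - inner ℝ v e := by
    rw [hh, inner_sub_left, inner_smul_left, hee]
    simp
  have hve2 := abs_le.1 hve
  have hLs : 0 ≤ L / s0 := by positivity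
  have hge : L / s0 + 1 ≤ inner ℝ h e := by
    rw [hhe]
    linarith [hve2.2]
  have hnn : inner ℝ h e ≤ ‖h‖ := by
    have := real_inner_le_norm h e
    rwa [he, mul_one] at this
  have hsq : ‖h‖ ^ 2 - (inner ℝ h e) ^ 2 = ‖v‖ ^ 2 - (inner ℝ v e) ^ 2 := by
    have h1 : ‖h‖ ^ 2 = M ^ 2 - 2 * M * inner ℝ v e + ‖v‖ ^ 2 := by
      rw [hh, norm_sub_sq_real, norm_smul, he, mul_one, Real.norm_eq_abs, sq_abs,
        inner_smul_left, real_inner_comm v e]
      simp
      ring
    rw [h1, hhe]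
    ring
  have hLs2 : L ≤ s0 * ‖h‖ := by
    have h1 : L / s0 ≤ ‖h‖ := by linarith
    have h2 := mul_le_mul_of_nonneg_left h1 hs0.le
    have h3 : s0 * (L / s0) = L := by field_simp
    linarith
  have hL2 : L ^ 2 ≤ (s0 * ‖h‖) ^ 2 := pow_le_pow_left₀ hL hLs2 2
  have hv2 : ‖v‖ ^ 2 ≤ L ^ 2 := pow_le_pow_left₀ (norm_nonneg v) hv 2
  have hkey : (√(1 - s0 ^ 2) * ‖h‖) ^ 2 ≤ (inner ℝ h e) ^ 2 := by
    have hpos : 0 ≤ 1 - s0 ^ 2 := by nlinarith
    rw [mul_pow, Real.sq_sqrt hpos]
    nlinarith [sq_nonneg (inner ℝ v e)]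
  have h0 : 0 ≤ inner ℝ h e := by linarith
  exact le_of_sq_le_sq hkey h0

theorem np (h1 : T_CONE) (h2 : T_ODEI) (h3 : T_E0) : T_NP := by
  intro N f φ c lam K k μ η0 θ U u hN hyp hU hC hu η R0 C t3 hη hη1 hR0 hC1 ht3 hE hup
  have hc : 0 < c := hyp.front.cpos
  have hK : 0 < K := hyp.toLip.K0
  have hfθ : 0 < f θ := hyp.high θ le_rfl hyp.th1
  have hθ := hyp.th0
  have hθ1 := hyp.th1
  -- the smaller threshold
  obtain ⟨θ', hθ'0, hθ'1, hθ'f⟩ : ∃ θ', 0 < θ' ∧ θ' < θ ∧ ∀ s, θ' ≤ s → s < 1 → 0 < f s := by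
    refine ⟨θ - min (θ / 2) (f θ / (2 * K)), ?_, ?_, ?_⟩
    · have := min_le_left (θ / 2) (f θ / (2 * K))
      linarith
    · have : 0 < min (θ / 2) (f θ / (2 * K)) := lt_min (by linarith) (by positivity)
      linarith
    · intro s hs hs1
      rcases le_or_gt θ s with h | h
      · exact hyp.high s h hs1
      · have h4 := hyp.toLip.lip θ s
        have h5 := le_abs_self (f θ - f s)
        rw [abs_of_pos (sub_pos.2 h)] at h4
        have h6 := min_le_right (θ / 2) (f θ / (2 * K))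
        have h7 : θ - s ≤ f θ / (2 * K) := by linarith
        have h8 : K * (θ - s) ≤ K * (f θ / (2 * K)) := mul_le_mul_of_nonneg_left h7 hK.le
        have h9 : K * (f θ / (2 * K)) = f θ / 2 := by field_simp
        linarith
  obtain ⟨L, S0, hL, hS0, hode⟩ := h2 N f K θ' η R0 hyp.toLip hθ'0 (by linarith) hθ'f hη hη1 hR0
  -- the time shift
  obtain ⟨s1, hs1C, hs1⟩ : ∃ s1, C ≤ s1 ∧ 0 ≤ c * s1 - C * √s1 := by
    refine ⟨C + (C / c) ^ 2, by nlinarith [sq_nonneg (C / c)], ?_⟩
    set s1 := C + (C / c) ^ 2 with hs1d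
    have h0 : 0 ≤ s1 := by positivity
    have h5 : C / c ≤ √s1 := by
      apply Real.le_sqrt_of_sq_le
      linarith
    have h6 : √s1 * √s1 = s1 := Real.mul_self_sqrt h0
    have h7 : C ≤ c * √s1 := by
      rw [div_le_iff₀ hc] at h5
      linarith
    have h8 : C * √s1 ≤ c * √s1 * √s1 := mul_le_mul_of_nonneg_right h7 (Real.sqrt_nonneg _)
    have h9 : c * √s1 * √s1 = c * s1 := by rw [mul_assoc, h6]
    linarith
  -- the opening of the cone
  obtain ⟨s0, hs00, hs01, hs0⟩ : ∃ s0, 0 < s0 ∧ s0 < 1 ∧ 4 * K * s0 ^ 2 < (c / 2) ^ 2 := by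
    have hd : 0 < c + 4 * K + 4 := by positivity
    refine ⟨c / (c + 4 * K + 4), by positivity, ?_, ?_⟩
    · rw [div_lt_one hd]
      linarith
    · rw [div_pow, div_pow, ← mul_div_assoc, div_lt_div_iff₀ (by positivity) (by norm_num)]
      have : 16 * K < (c + 4 * K + 4) ^ 2 := by nlinarith
      have hc2 : 0 < c ^ 2 := by positivity
      nlinarith
  set M := L + L / s0 + 1 with hM
  have hLs0 : 0 < L / s0 := by positivity
  have hMpos : 0 < M := by linarith
  obtain ⟨Tc, hTc, hcone⟩ := h1 N f K K U u hyp.toLip hK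
    (fun p q _ h _ => by
      have h4 := hyp.toLip.lip q p
      rw [abs_of_nonneg (sub_nonneg.2 h)] at h4
      exact (le_abs_self _).trans h4)
    hC hu (c / 2) s0 (M + L) (θ - θ') (by linarith) hs00 hs01 hs0 (by linarith) (by linarith)
  set T1 := 3 * t3 + 4 * C ^ 2 / c ^ 2 + 4 * C / c + C with hT1
  have hC2 : 0 ≤ 4 * C ^ 2 / c ^ 2 := by positivity
  have hC3 : 0 ≤ 4 * C / c := by positivity
  refine ⟨M + 1, S0 + s1, max Tc T1, by linarith, by linarith, ?_, ?_⟩
  · refine le_trans ?_ (le_max_right _ _)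
    linarith
  intro t ht y hy
  have htc : Tc ≤ t := (le_max_left _ _).trans ht
  have ht1 : T1 ≤ t := (le_max_right _ _).trans ht
  have htt3 : t3 + C ≤ t := by linarith
  have ht0 : 0 < t := by linarith
  have hyI : y ∉ ign u η R0 (t + (S0 + s1)) := by
    intro h
    rw [infDist_zero_of_mem h] at hy
    linarith
  -- (i)
  have hdist : c / 2 * t ≤ infDist y U := by
    rw [le_infDist hU]
    intro p hp
    obtain ⟨p', hp', hpp'⟩ := hup p hp
    set s := t + (S0 + s1) - t3 with hs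
    have hsC : C ≤ s := by linarith
    have hs0' : 0 ≤ s := by linarith
    have h4 : ¬ dist p' y ≤ c * s - C * √s := by
      intro h
      have := hE t3 le_rfl s hsC p' hp' y h
      apply hyI
      have e : t3 + s = t + (S0 + s1) := by
        rw [hs]
        ring
      rwa [e] at this
    push Not at h4
    have h5 : dist p' y ≤ dist p p' + dist y p := by
      have := dist_triangle p' p y
      rw [dist_comm p' p, dist_comm p y] at this
      exact this
    have h6 : C * √s ≤ c * s / 4 + C ^ 2 / c := by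
      have hq : √s * √s = s := Real.mul_self_sqrt hs0'
      have : 0 ≤ (c * √s / 2 - C) ^ 2 / c := by positivity
      have e : (c * √s / 2 - C) ^ 2 / c = c * (√s * √s) / 4 - C * √s + C ^ 2 / c := by
        field_simp
        ring
      rw [e, hq] at this
      linarith
    have h7 : C ^ 2 / c = c / 4 * (4 * C ^ 2 / c ^ 2) := by field_simp
    have h8 : C = c / 4 * (4 * C / c) := by field_simp
    have h9 : c / 4 * T1 ≤ c / 4 * t := mul_le_mul_of_nonneg_left ht1 (by positivity)
    have h10 : c / 4 * T1 = c / 4 * (3 * t3) + c / 4 * (4 * C ^ 2 / c ^ 2) + c / 4 * (4 * C / c)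
        + c / 4 * C := by
      rw [hT1]
      ring
    have h11 : c * (t - t3) ≤ c * s := mul_le_mul_of_nonneg_left (by linarith) hc.le
    have h12 : 0 ≤ c / 4 * C := by positivity
    nlinarith
  have hpos : 0 < infDist y U := by
    have : 0 < c / 2 * t := by positivity
    linarith
  obtain ⟨ξ, e, hD⟩ := h3 N U y hpos
  have he := hD.unit
  -- (ii)
  obtain ⟨z, hz, hzt⟩ : ∃ z ∈ closedBall (y - M • e) L, u t z < θ' := by
    by_contra hcon
    push Not at hcon
    have h4 := hode 0 (lift0 U u) hu.mild hu.rng t ht0 (y - M • e) (by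
      rw [lift0_pos ht0]
      exact hcon)
    rw [lift0_pos (by linarith)] at h4
    have h5 : y - M • e ∈ ign u η R0 (t + S0) := h4
    have h6 := hE (t + S0) (by linarith) s1 hs1C _ h5 (y - M • e) (by
      rw [dist_self]
      exact hs1)
    rw [add_assoc] at h6
    have h7 := infDist_le_dist_of_mem (x := y) h6
    rw [dist_eq_norm, sub_sub_cancel, norm_smul, he, mul_one, Real.norm_eq_abs,
      abs_of_pos hMpos] at h7
    linarith
  have hv : ‖z - (y - M • e)‖ ≤ L := by
    rwa [mem_closedBall, dist_eq_norm] at hz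
  have hh : y - z = M • e - (z - (y - M • e)) := by abel
  have hcm := cone_mem he hL.le hs00 hs01 (le_refl M) hv hh
  have hnorm : ‖y - z‖ ≤ M + L := by
    rw [hh]
    refine (norm_sub_le _ _).trans ?_
    rw [norm_smul, he, mul_one, Real.norm_eq_abs, abs_of_pos hMpos]
    linarith
  have hfin := hcone t htc y ξ e hD hdist z (y - z) (by rwa [norm_sub_rev]) hnorm hcm
  rw [add_sub_cancel] at hfin
  linarith

end Pool.Agent.H46.RD
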