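import Pool.Agent.H79.RD.Targets

/-! Module P3 of the board `rdh_modules`: the three numeric conditions. -/

namespace Pool.Agent.H46.RD

open Finset Pool.Agent.H79.RD

theorem pf_P3 : T_P1 → T_P2 → T_P3 := by
  intro P1 P2 N b k a g R h m q s s' hN hq h1 h2 h3 h4 h5 h6
  set B := b * N + 2 with hB
  have hB0 : 0 < B := by omega
  set T := N ^ k / B with hTdef
  have hTB : T * B ≤ N ^ k := Nat.div_mul_le_self _ _
  have hTB' : N ^ k < B * (T + 1) := Nat.lt_mul_div_succ (N ^ k) hB0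
  have e1 : 2 ^ s * (a + 1) ^ k ≤ N ^ k := P2 q (a + 1) N k s hq h1 h2
  have e2 : 2 ^ s * a ^ k ≤ N ^ k :=
    P2 q a N k s hq ((Nat.mul_le_mul_left q (Nat.le_succ a)).trans h1) h2
  have hak : 1 ≤ (a + 1) ^ k := Nat.one_le_pow _ _ (Nat.succ_pos a)
  have hg1 : 1 ≤ 2 ^ g := Nat.one_le_two_pow
  have hT0 : 0 < T := by
    rcases Nat.eq_zero_or_pos T with h0 | h0
    · exfalso
      rw [h0] at hTB'
      have e3 : 8 * 1 * B ≤ 8 * 2 ^ g * B := Nat.mul_le_mul_right _ (Nat.mul_le_mul_left _ hg1)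
      have e4 : 2 ^ s * 1 ≤ 2 ^ s * (a + 1) ^ k := Nat.mul_le_mul_left _ hak
      omega
    · exact h0
  have hN2 : N ^ k ≤ 2 * B * T := by nlinarith
  have hB2 : 0 < 2 * B := by omega
  refine ⟨T, hT0, ?_, ?_, ?_⟩
  · have := P1 T (N ^ k) B hT0 hTB
    have e : 4 * 2 ^ (b * N) = 2 ^ B := by
      rw [hB, pow_add]; ring
    rw [e]
    exact this
  · have e3 : 4 * (2 ^ g * (a + 1) ^ k) ≤ T := by
      have : 2 * B * (4 * (2 ^ g * (a + 1) ^ k)) ≤ 2 * B * T := by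
        calc 2 * B * (4 * (2 ^ g * (a + 1) ^ k)) = 8 * 2 ^ g * B * (a + 1) ^ k := by ring
          _ ≤ 2 ^ s * (a + 1) ^ k := Nat.mul_le_mul_right _ h3
          _ ≤ N ^ k := e1
          _ ≤ 2 * B * T := hN2
      exact Nat.le_of_mul_le_mul_left this hB2
    calc 4 * (2 ^ (b * N) * 2 ^ N * N * 2 ^ b) * (2 ^ g * (a + 1) ^ k) ^ h
        ≤ 4 ^ h * (2 ^ g * (a + 1) ^ k) ^ h := Nat.mul_le_mul_right _ h6
      _ = (4 * (2 ^ g * (a + 1) ^ k)) ^ h := (mul_pow _ _ _).symm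
      _ ≤ T ^ h := Nat.pow_le_pow_left e3 h
  · have e3 : 2 ^ s' * (m * N * 2 ^ b * a ^ k) ≤ T := by
      have : 2 * B * (2 ^ s' * (m * N * 2 ^ b * a ^ k)) ≤ 2 * B * T := by
        calc 2 * B * (2 ^ s' * (m * N * 2 ^ b * a ^ k))
            = 2 * B * (2 ^ s' * (m * N * 2 ^ b)) * a ^ k := by ring
          _ ≤ 2 ^ s * a ^ k := Nat.mul_le_mul_right _ h4
          _ ≤ N ^ k := e2
          _ ≤ 2 * B * T := hN2
      exact Nat.le_of_mul_le_mul_left this hB2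
    have e4 : 4 * (2 ^ (b * N) * 2 ^ (N * m)) ≤ (2 ^ s') ^ R := by
      calc 4 * (2 ^ (b * N) * 2 ^ (N * m)) = 2 ^ (b * N + N * m + 2) := by
            rw [pow_add, pow_add]; ring
        _ ≤ 2 ^ (s' * R) := Nat.pow_le_pow_right (by norm_num) h5
        _ = (2 ^ s') ^ R := pow_mul _ _ _
    calc 4 * (2 ^ (b * N) * 2 ^ (N * m)) * (m * N * 2 ^ b * a ^ k) ^ R
        ≤ (2 ^ s') ^ R * (m * N * 2 ^ b * a ^ k) ^ R := Nat.mul_le_mul_right _ e4
      _ = (2 ^ s' * (m * N * 2 ^ b * a ^ k)) ^ R := (mul_pow _ _ _).symm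
      _ ≤ T ^ R := Nat.pow_le_pow_left e3 R

end Pool.Agent.H46.RD
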