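import Pool.Agent.H79.RD.Targets

/-! Module P5 of the board `rdh_modules`: from the integer inequality to the final bound. -/

namespace Pool.Agent.H46.RD

open Finset Pool.Agent.H79.RD

theorem pf_P5 : T_P5 := by
  intro ε E n X Y S hε hE h6 h1 h2 h3
  have hYX : Y ≤ X := Nat.le_of_mul_le_mul_left h2 hE
  obtain ⟨Z, rfl⟩ := Nat.exists_eq_add_of_le hYX
  have h4 : E * n ≤ E * Z + 6 * n := by
    have : E * (Y + Z) - E * Y = E * Z := by rw [Nat.mul_add, Nat.add_sub_cancel_left]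
    rw [this] at h1
    exact h1
  have h5 : 2 ^ Z ≤ S := by
    have : 2 ^ Y * 2 ^ Z ≤ 2 ^ Y * S := by
      rw [← pow_add, mul_comm (2 ^ Y) S]
      exact h3
    exact Nat.le_of_mul_le_mul_left this (by positivity)
  have hE' : (0 : ℝ) < E := by exact_mod_cast hE
  have h4' : (E : ℝ) * n ≤ E * Z + 6 * n := by exact_mod_cast h4
  have hn : (0 : ℝ) ≤ n := Nat.cast_nonneg n
  have h6' : 6 * (n : ℝ) ≤ ε * E * n := mul_le_mul_of_nonneg_right h6 hn
  have h7 : (1 - ε) * n ≤ (Z : ℝ) := by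
    have : (E : ℝ) * ((1 - ε) * n) ≤ E * Z := by nlinarith
    exact le_of_mul_le_mul_left this hE'
  calc (2 : ℝ) ^ ((1 - ε) * n) ≤ (2 : ℝ) ^ ((Z : ℕ) : ℝ) :=
        Real.rpow_le_rpow_of_exponent_le (by norm_num) h7
    _ = (2 : ℝ) ^ Z := Real.rpow_natCast _ _
    _ ≤ S := by exact_mod_cast h5

end Pool.Agent.H46.RD
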